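import Pool.Agent.Lib.MP_f2256b_ntT14.Main2

/-!
# The central limit theorem forces cancellation in short sums of the square of the character

The Fejer means of the square of the character are superposed to Poisson and Cauchy kernels at all scales,
whose combinations approximate the indicator function of an interval.
-/

set_option autoImplicit false

open ProbabilityTheory MeasureTheory Filter Topology Finset

namespace Pool.Agent.Results.MP_f2256b_nt.CharacterSums

open CharCLT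

theorem result :
    (∀ (q : ℕ → ℕ) (χ : (k : ℕ) → DirichletCharacter ℂ (q k)) (H : ℕ → ℕ),
      (∀ k, (q k).Prime) → (∀ k, χ k ^ 2 ≠ 1) → (∀ k, 1 ≤ H k ∧ H k ≤ q k) →
      Tendsto (fun k => (H k : ℝ)) atTop atTop → AllCLT q χ H → ∀ u : ℝ, 0 < u →
      Tendsto (fun k => (H k : ℝ) / q k *
        ‖∑ n ∈ Icc 1 ⌊u * ((q k : ℝ) / H k)⌋₊, χ k (n : ZMod (q k)) ^ 2‖) atTop (𝓝 0)) ∧
    (Q1b → ∀ ε : ℝ, 0 < ε → ∃ C : ℕ, ∀ q : ℕ, q.Prime → ∀ χ : DirichletCharacter ℂ q,
      χ ^ 2 ≠ 1 → ∀ x : ℕ, Real.log q ^ C ≤ x → x ^ 2 ≤ q →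
        ‖∑ n ∈ Icc 1 x, χ (n : ZMod q) ^ 2‖ ≤ ε * x) :=
  CharCLT.main2

end Pool.Agent.Results.MP_f2256b_nt.CharacterSums
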