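import Pool.Agent.Lib.MP_f2256b_ntH79.Log79

/-!
# MP_f2256b_nt: the central limit theorem for Legendre symbols and the least non-residue
-/

set_option autoImplicit false

open ProbabilityTheory MeasureTheory Filter Topology Finset

namespace Pool.Agent.Results.MP_f2256b_nt.LeastNonResidue

open LegCLT

/-- (1) If the Legendre symbols mod `q k` are `1` up to `y k`, with `H k / q k → 0` and
`y k * H k / q k → ∞`, then `S(X) / √H` converges in distribution to `0`. (2) If the central limit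
theorem holds along `(q k, H k)` with `H k / q k → 0`, then there is a non-residue
`n ≤ C q k / H k`. (3) Part (a) of Q1 implies that for every prime `q ≥ 3` the least quadratic
non-residue is at most `(log q) ^ C`. -/
theorem result :
    (∀ q H y : ℕ → ℕ, (∀ k, (q k).Prime) → (∀ k, 3 ≤ q k) → (∀ k, 1 ≤ H k ∧ H k ≤ q k) →
      Tendsto (fun k => (H k : ℝ) / q k) atTop (𝓝 0) →
      Tendsto (fun k => (y k : ℝ) * H k / q k) atTop atTop →
      (∀ k, ∀ n : ℕ, 1 ≤ n → n ≤ y k → n < q k → jacobiSym (n : ℤ) (q k) = 1) →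
      ∀ f : ℝ → ℝ, Continuous f → (∃ C : ℝ, ∀ x, |f x| ≤ C) →
        Tendsto (fun k => A (q k) (H k) f) atTop (𝓝 (f 0))) ∧
    (∀ q H : ℕ → ℕ, (∀ k, (q k).Prime) → (∀ k, 3 ≤ q k) → (∀ k, 1 ≤ H k ∧ H k ≤ q k) →
      Tendsto (fun k => (H k : ℝ) / q k) atTop (𝓝 0) → CLT q H →
      ∃ C : ℝ, ∀ᶠ k in atTop, ∃ n : ℕ, 1 ≤ n ∧ n < q k ∧
        (n : ℝ) ≤ C * q k / H k ∧ jacobiSym (n : ℤ) (q k) = -1) ∧
    (Q1a → ∃ C : ℕ, ∀ q : ℕ, q.Prime → 3 ≤ q →
      ∃ n : ℕ, n < q ∧ (n : ℝ) ≤ Real.log q ^ C ∧ jacobiSym (n : ℤ) q = -1) :=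
  ⟨lim, sub, logBound⟩

end Pool.Agent.Results.MP_f2256b_nt.LeastNonResidue
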