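import Pool.Agent.Lib.MP_f2256b_nt.Main

/-!
# A necessary condition for the central limit theorem for non-real characters

The pseudo-variance of the normalized sum over a moving interval of length `H` equals, up to a factor of
absolute value one, the mean of the square of the (conjugate) character over the Fejer weights of width `q / H`.
-/

set_option autoImplicit false

open ProbabilityTheory MeasureTheory Filter Topology Finset

namespace Pool.Agent.Results.MP_f2256b_nt.NecessaryCondition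

open CharCLT

theorem result :
    (∀ q H : ℕ, q.Prime → 1 ≤ H → H ≤ q → ∀ χ : DirichletCharacter ℂ q, χ ≠ 1 →
      ∑ a ∈ range q, w q H a = 1 ∧ A χ H (fun z => ‖z‖ ^ 2) = 1 - H / q ∧
      ‖(1 / (q : ℂ)) * ∑ X ∈ range q, (S χ H X / ((√(H : ℝ) : ℝ) : ℂ)) ^ 2‖ =
        ‖∑ a ∈ range q, χ (a : ZMod q) ^ 2 * (w q H a : ℂ)‖) ∧
    (∀ (q : ℕ → ℕ) (χ : (k : ℕ) → DirichletCharacter ℂ (q k)) (H : ℕ → ℕ),
      (∀ k, (q k).Prime) → (∀ k, χ k ^ 2 ≠ 1) → (∀ k, 1 ≤ H k ∧ H k ≤ q k) → CLT q χ H →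
      Tendsto (fun k => (H k : ℝ) / q k) atTop (𝓝 0) ∧
      Tendsto (fun k => ∑ a ∈ range (q k), χ k (a : ZMod (q k)) ^ 2 * (w (q k) (H k) a : ℂ))
        atTop (𝓝 0) ∧
      ∀ᶠ k in atTop, ∃ n : ℕ, 1 ≤ n ∧ n < q k ∧ (n : ℝ) ≤ 2 * q k / H k ∧
        χ k (n : ZMod (q k)) ^ 2 ≠ 1) ∧
    (Q1b → ∃ C : ℕ, ∀ q : ℕ, q.Prime → ∀ χ : DirichletCharacter ℂ q, χ ^ 2 ≠ 1 →
      ∃ n : ℕ, 1 ≤ n ∧ n < q ∧ (n : ℝ) ≤ Real.log q ^ C ∧ χ (n : ZMod q) ^ 2 ≠ 1) :=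
  CharCLT.main

end Pool.Agent.Results.MP_f2256b_nt.NecessaryCondition
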